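import Pool.Agent.H24U.Gad

/-!
# Borel unfriendly colourings of Borel graphs with degrees at most four

A Borel graph on a standard Borel space `X` is a Borel set `G ⊆ X × X` that is symmetric and
irreflexive. Every Borel graph of bounded degree has a Borel colouring with two colours which is
unfriendly at all vertices of degree at most four and in which every vertex of degree at least three
has at least two neighbours of the other colour. There is no measure, and the graph need not be
regular, acyclic or hyperfinite.

Outline of the proof. A core is a coloured Borel set in which every point has two neighbours of the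
other colour in the set. In a graph of minimal degree at least three a core that meets every component
and cannot be enlarged by finite sets extends to all vertices; on the components without finite cores
all cycles are odd and every edge is on at most one cycle, so that after removing one edge of every
cycle one has a Borel forest with branching, on which there are Borel colourings with infinite clusters
of the edges between different colours; flipping a discrete set of points gives a core. This is the
proof of the theorem on 3-regular graphs of the starting library (`Pool/Agent/Helper611/UF`), carried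
out for all degrees at least three (`Pool/Agent/H24U`). Vertices of degree at most two are treated by
attaching finite graphs; for the vertices of degree one this is `K_{3,3}` without an edge, whose ends
have different colours.
-/

set_option autoImplicit false

open MeasureTheory

namespace Pool.Agent.Results.MP_99e1f5_lc.DegreeAtMostFour

/-- the number of neighbours of `x` -/
noncomputable def deg {X : Type} (G : Set (X × X)) (x : X) : ℕ := {y | (x, y) ∈ G}.ncard

/-- the number of neighbours of `x` with a colour different from that of `x` -/
noncomputable def opp {X : Type} (G : Set (X × X)) (c : X → Fin 2) (x : X) : ℕ :=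
  {y | (x, y) ∈ G ∧ c y ≠ c x}.ncard

/-- Let `G` be a Borel graph on the standard Borel space `X` such that every vertex has at most `Δ`
neighbours. There is a Borel map `c : X → {0, 1}` such that every vertex `x` of degree at most four
has at least `deg x / 2` neighbours `y` with `c y ≠ c x`, and every vertex of degree at least three
has at least two such neighbours. -/
theorem result (X : Type) [MeasurableSpace X] [StandardBorelSpace X] (G : Set (X × X))
    (hG : MeasurableSet G) (hsymm : ∀ x y, (x, y) ∈ G → (y, x) ∈ G) (hirr : ∀ x, (x, x) ∉ G)
    (Δ : ℕ) (hdeg : ∀ x, {y | (x, y) ∈ G}.Finite ∧ deg G x ≤ Δ) :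
    ∃ c : X → Fin 2, Measurable c ∧
      ∀ x, (deg G x ≤ 4 → deg G x ≤ 2 * opp G c x) ∧ (3 ≤ deg G x → 2 ≤ opp G c x) := by
  classical
  obtain ⟨H, hH⟩ : ∃ H : SimpleGraph X, ∀ x y, H.Adj x y ↔ (x, y) ∈ G :=
    ⟨{ Adj := fun x y => (x, y) ∈ G
       symm := ⟨fun x y h => hsymm x y h⟩
       loopless := ⟨fun x h => hirr x h⟩ }, fun _ _ => Iff.rfl⟩
  have hnb : ∀ x, H.neighborSet x = {y | (x, y) ∈ G} := fun x => Set.ext fun y => hH x y
  have hBG : Pool.Agent.Helper611.UF.BG H Δ := by
    refine ⟨?_, fun x => ?_⟩
    · have : {p : X × X | H.Adj p.1 p.2} = G := Set.ext fun p => hH p.1 p.2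
      unfold Pool.Agent.Helper611.UF.Bor2
      rw [this]
      exact hG
    · rw [hnb, ← (hdeg x).1.cast_ncard_eq]
      exact_mod_cast (hdeg x).2
  obtain ⟨c, hc, h1, h2⟩ := Pool.Agent.H24U.all H Δ hBG
  have hF : ∀ a b : Bool, (if a = true then (1 : Fin 2) else 0) = (if b = true then 1 else 0) ↔
      a = b := by decide
  refine ⟨fun x => if c x = true then 1 else 0, ?_, fun x => ?_⟩
  · exact Measurable.ite (hc (measurableSet_singleton true)) measurable_const measurable_const
  have hfin := (hdeg x).1
  have hopp : opp G (fun x => if c x = true then (1 : Fin 2) else 0) x =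
      {y | (x, y) ∈ G ∧ c y ≠ c x}.ncard := by
    unfold opp
    congr 1
    ext y
    exact and_congr_right fun _ => (hF _ _).not
  rw [hopp]
  have hfo : {y | (x, y) ∈ G ∧ c y ≠ c x}.Finite := hfin.subset fun y hy => hy.1
  -- degree at least one
  have k1 : 1 ≤ deg G x → 1 ≤ {y | (x, y) ∈ G ∧ c y ≠ c x}.ncard := by
    intro h
    obtain ⟨y, hy⟩ : {y | (x, y) ∈ G}.Nonempty := by
      rw [Set.nonempty_iff_ne_empty]
      intro h0
      unfold deg at h
      rw [h0, Set.ncard_empty] at h
      omega
    obtain ⟨z, hz, hcz⟩ := h1 x ⟨y, (hH x y).2 hy⟩
    exact (Set.ncard_pos hfo).2 ⟨z, (hH x z).1 hz, hcz⟩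
  -- degree at least three
  have k3 : 3 ≤ deg G x → 2 ≤ {y | (x, y) ∈ G ∧ c y ≠ c x}.ncard := by
    intro h
    obtain ⟨a, b, d, hab, had, hbd, ha, hb, hd⟩ := Pool.Agent.H24U.three_nb (G := H) (x := x)
      (by rw [hnb]; exact h)
    obtain ⟨y, z, hyz, hy, hz, -, -, hcy, hcz⟩ := h2 x ⟨a, b, d, hab, had, hbd, ha, hb, hd⟩
    rw [← Set.ncard_pair hyz]
    refine Set.ncard_le_ncard ?_ hfo
    rintro w (rfl | rfl)
    · exact ⟨(hH x _).1 hy, hcy⟩
    · exact ⟨(hH x _).1 hz, hcz⟩
  refine ⟨fun h => ?_, k3⟩
  by_cases h3 : 3 ≤ deg G x
  · have := k3 h3
    omega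
  · by_cases h0 : 1 ≤ deg G x
    · have := k1 h0
      omega
    · omega

end Pool.Agent.Results.MP_99e1f5_lc.DegreeAtMostFour
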